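import Pool.Agent.H46.OP.Fin
import Pool.Agent.H46.Lib.R_seed8.R333.BR.Ord
import Pool.Agent.H46.Lib.R_pool_sql_team_seeded_c8625f6e.K4H83.OA.MW

/-!
# The Birch and Swinnerton-Dyer rank conjecture: one bad prime suffices

Let `E` be an elliptic curve over a number field `K`, let `X` be given and let `T / K` be a finite
extension. There are finite extensions `F` of `K` such that

* `E` has good or split multiplicative reduction at all primes of `F` but at most one, and that
  prime is the only one of `F` of norm `≤ X` if there is one of norm `≤ X`;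
* `F` has a cyclic extension `F'` which contains `T` and over which `E` has good or split
  multiplicative reduction everywhere,

integers `n_F` and `N ≠ 0` with `N · rank E(K) = ∑ n_F rank E(F)`, such that `L(E/K, s) ^ N` has a
meromorphic continuation, of order `∑ n_F ord_{s=1} L(E/F, s)` at `s = 1`, as soon as the `L(E/F, s)`
have one. So the rank conjecture for such pairs `(F, E)` implies the rank conjecture for all elliptic
curves over all number fields.

The fields come from a relation `∑ n_F · embeddings F g = N` in the Galois group of a finite Galois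
extension `L / K`. By the theorem on semistable reduction there is a Galois extension `M / K` over which
`E` has good or split multiplicative reduction everywhere. Let `C` be a cyclic subgroup of `Gal(M/K)`
with fixed field `K_C` (Artin's induction theorem). For every prime `v` of a finite set `S` of primes of
`K_C` and every subgroup `U` of the decomposition group at `v` of a large extension there are monic
polynomials `f` over `K_C` which are at `v` close to a polynomial with the Galois set of roots
`D_v / U` and at the other primes of `S` close to a polynomial all whose roots generate the local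
extension `M_u` (approximation at several primes with a finite form of Krasner's lemma). Products of
the corresponding permutation characters and the local Artin relations give the relation over `K_C`.
-/

set_option autoImplicit false

namespace Pool.Agent.Results.MP_cd906c_nt.OneBadPrime

open NumberField IsDedekindDomain
open scoped Pointwise

/-- `V v` is, for every prime `v`, an integral model of `E` with discriminant minimal at `v`. -/
def MinimalModels {K : Type} [Field K] [NumberField K] (E : WeierstrassCurve K)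
    (V : HeightOneSpectrum (𝓞 K) → WeierstrassCurve (𝓞 K)) : Prop :=
  ∀ v : HeightOneSpectrum (𝓞 K),
    (∃ C : WeierstrassCurve.VariableChange K, C • (V v).map (algebraMap (𝓞 K) K) = E) ∧
    ∀ W : WeierstrassCurve (𝓞 K),
      (∃ C : WeierstrassCurve.VariableChange K, C • W.map (algebraMap (𝓞 K) K) = E) →
        ∀ n : ℕ, (V v).Δ ∈ v.asIdeal ^ n → W.Δ ∈ v.asIdeal ^ n

open Classical in
/-- The Euler product of `L(E/K, s)` over all primes `v` of `K`, computed from the reductions of the
models `V v`. -/
noncomputable def LSeries {K : Type} [Field K] [NumberField K]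
    (V : HeightOneSpectrum (𝓞 K) → WeierstrassCurve (𝓞 K)) (s : ℂ) : ℂ :=
  ∏' v : HeightOneSpectrum (𝓞 K),
    (1 - ((Ideal.absNorm v.asIdeal : ℂ)
          - (Nat.card {xy : (𝓞 K ⧸ v.asIdeal) × (𝓞 K ⧸ v.asIdeal) //
              ((V v).map (Ideal.Quotient.mk v.asIdeal)).toAffine.Equation xy.1 xy.2} : ℂ))
          * (Ideal.absNorm v.asIdeal : ℂ) ^ (-s)
      + (if (V v).Δ ∈ v.asIdeal then 0 else (Ideal.absNorm v.asIdeal : ℂ))
          * (Ideal.absNorm v.asIdeal : ℂ) ^ (-2 * s))⁻¹

/-- `Λ` is a meromorphic continuation of `L(E/K, s)` to the plane. -/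
def IsContinuation {K : Type} [Field K] [NumberField K] (E : WeierstrassCurve K) (Λ : ℂ → ℂ) :
    Prop :=
  MeromorphicOn Λ Set.univ ∧
    ∀ V : HeightOneSpectrum (𝓞 K) → WeierstrassCurve (𝓞 K), MinimalModels E V →
      ∀ s : ℂ, 3 / 2 < s.re → Λ s = LSeries V s

open Classical in
/-- The rank of the group `E(K)`. -/
noncomputable def rank {K : Type} [Field K] (E : WeierstrassCurve K) : ℕ :=
  Module.finrank ℤ E.toAffine.Point

/-- `Λ` is a meromorphic continuation of `L(E/K, s) ^ N` to the plane. -/
def IsContinuationOfPower {K : Type} [Field K] [NumberField K] (N : ℕ) (E : WeierstrassCurve K)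
    (Λ : ℂ → ℂ) : Prop :=
  MeromorphicOn Λ Set.univ ∧
    ∀ V : HeightOneSpectrum (𝓞 K) → WeierstrassCurve (𝓞 K), MinimalModels E V →
      ∀ s : ℂ, 3 / 2 < s.re → Λ s = LSeries V s ^ N

/-- The rank conjecture (Q1) for `E` over `K`: every meromorphic continuation of `L(E/K, s)` to the
plane has order `rank E(K)` at `s = 1`. -/
def RankConjecture {K : Type} [Field K] [NumberField K] (E : WeierstrassCurve K) : Prop :=
  ∀ Λ : ℂ → ℂ, IsContinuation E Λ → meromorphicOrderAt Λ 1 = ((rank E : ℤ) : WithTop ℤ)

/-- The number of `K`-embeddings of `F` into the subfield of `L` fixed by `g`. -/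
noncomputable def embeddings {K L : Type} [Field K] [Field L] [Algebra K L]
    (F : IntermediateField K L) (g : Gal(L/K)) : ℕ :=
  Nat.card {τ : F →ₐ[K] L // ∀ x, g (τ x) = τ x}

/-- `E` has good or split multiplicative reduction at the prime `w` of `F`: it has a model with
coefficients in `𝓞 F` whose discriminant is prime to `w`, or whose reduction modulo `w` is the cubic
`y² + c x y = x³` with `c ≠ 0`, which has a node with the rational tangents `y = 0` and `y = - c x`. -/
def GoodOrSplit {F : Type} [Field F] [NumberField F] (E : WeierstrassCurve F)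
    (w : HeightOneSpectrum (𝓞 F)) : Prop :=
  ∃ V : WeierstrassCurve (𝓞 F),
    (∃ C : WeierstrassCurve.VariableChange F, C • V.map (algebraMap (𝓞 F) F) = E) ∧
    (V.Δ ∉ w.asIdeal ∨ (V.a₁ ∉ w.asIdeal ∧ V.a₂ ∈ w.asIdeal ∧ V.a₃ ∈ w.asIdeal ∧
      V.a₄ ∈ w.asIdeal ∧ V.a₆ ∈ w.asIdeal))

/-- The field `F` has at most one prime which has norm `≤ X` or at which the reduction of `E` is neither
good nor split multiplicative. -/
def AtMostOneBadPrime {F : Type} [Field F] [NumberField F] (X : ℕ) (E : WeierstrassCurve F) : Prop :=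
  ∀ w w' : HeightOneSpectrum (𝓞 F), (Ideal.absNorm w.asIdeal ≤ X ∨ ¬ GoodOrSplit E w) →
    (Ideal.absNorm w'.asIdeal ≤ X ∨ ¬ GoodOrSplit E w') → w = w'

/-- `F` has a cyclic extension `F'` over which `E` has good or split multiplicative reduction everywhere
and which contains the extension `T` of `K` (`K ⊆ F`). -/
def HasCyclicExtension (K T F : Type) [Field K] [Field T] [Field F] [NumberField F] [Algebra K T]
    [Algebra K F] (E : WeierstrassCurve F) : Prop :=
  ∃ (F' : Type) (_ : Field F') (_ : NumberField F') (_ : Algebra F F'),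
    IsGalois F F' ∧ IsCyclic Gal(F'/F) ∧
    (∃ j : T →+* F', ∀ x : K, j (algebraMap K T x) = algebraMap F F' (algebraMap K F x)) ∧
    ∀ w : HeightOneSpectrum (𝓞 F'), GoodOrSplit (E.map (algebraMap F F')) w

/-- The two properties of the field `F ⊇ K` for `E` over `F`. -/
def Special (X : ℕ) (K T F : Type) [Field K] [Field T] [Field F] [NumberField F] [Algebra K T]
    [Algebra K F] (E : WeierstrassCurve F) : Prop :=
  AtMostOneBadPrime X E ∧ HasCyclicExtension K T F E

/-- `N · rank E(K) = ∑ n_F rank E(F)`; and if the `Λ F` are continuations of the `L(E/F, s)`, `F ∈ S`,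
then their orders `r_F` at `s = 1` are finite, `L(E/K, s) ^ N` has a continuation, the order at `s = 1`
of every such continuation is `∑ n_F r_F`, and `N` times the order of every continuation of `L(E/K, s)`
is `∑ n_F r_F`. -/
def RankAndOrderRelation {K L : Type} [Field K] [NumberField K] [Field L] [NumberField L]
    [Algebra K L] (N : ℕ) (S : Finset (IntermediateField K L)) (n : IntermediateField K L → ℤ)
    (E : WeierstrassCurve K) : Prop :=
  (N : ℤ) * (rank E : ℤ) = ∑ F ∈ S, n F * (rank (E.map (algebraMap K F)) : ℤ) ∧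
  ∀ Λ : IntermediateField K L → ℂ → ℂ,
    (∀ F ∈ S, IsContinuation (E.map (algebraMap K F)) (Λ F)) →
    ∃ r : IntermediateField K L → ℤ, (∀ F ∈ S, meromorphicOrderAt (Λ F) 1 = (r F : WithTop ℤ)) ∧
      (∃ Λ₀ : ℂ → ℂ, IsContinuationOfPower N E Λ₀) ∧
      (∀ Λ₀ : ℂ → ℂ, IsContinuationOfPower N E Λ₀ →
        meromorphicOrderAt Λ₀ 1 = ((∑ F ∈ S, n F * r F : ℤ) : WithTop ℤ)) ∧
      ∀ Λ₀ : ℂ → ℂ, IsContinuation E Λ₀ → ∃ r₀ : ℤ, meromorphicOrderAt Λ₀ 1 = (r₀ : WithTop ℤ) ∧
        (N : ℤ) * r₀ = ∑ F ∈ S, n F * r F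

/-- The rank formula over `F`, with the continuation: `L(E/F, s)` has a meromorphic continuation to the
plane, and the order of every such continuation at `s = 1` is the rank of `E(F)`. -/
def RankFormula {K : Type} [Field K] [NumberField K] (E : WeierstrassCurve K) : Prop :=
  (∃ Λ : ℂ → ℂ, IsContinuation E Λ) ∧ RankConjecture E

/-- `RankConjecture E`, and some power `L(E/K, s) ^ N`, `N ≠ 0`, has a meromorphic continuation to the
plane, of order `N · rank E(K)` at `s = 1`. -/
def RankConjectureAndPower {K : Type} [Field K] [NumberField K] (E : WeierstrassCurve K) : Prop :=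
  RankConjecture E ∧ ∃ N : ℕ, N ≠ 0 ∧ ∃ Λ : ℂ → ℂ, IsContinuationOfPower N E Λ ∧
    meromorphicOrderAt Λ 1 = ((N * rank E : ℤ) : WithTop ℤ)

section Aux

open Pool.Agent.H341R2.EC Pool.Agent.R433.MD
open Pool.Agent.H921R2.TatePole (nm two_le_nm)

variable {K : Type} [Field K] [NumberField K]

omit [NumberField K] in
theorem isModel_iff (E : WeierstrassCurve K) (W : WeierstrassCurve (𝓞 K)) :
    (∃ C : WeierstrassCurve.VariableChange K, C • W.map (algebraMap (𝓞 K) K) = E) ↔
      IsModel E W := by
  constructor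
  · rintro ⟨C, hC⟩
    exact ⟨C⁻¹, by rw [← hC, inv_smul_smul]⟩
  · rintro ⟨C, hC⟩
    exact ⟨C⁻¹, by rw [← hC, inv_smul_smul]⟩

theorem minimalModels_iff (E : WeierstrassCurve K)
    (V : HeightOneSpectrum (𝓞 K) → WeierstrassCurve (𝓞 K)) :
    MinimalModels E V ↔ ∀ v, IsMinAt E v (V v) := by
  unfold MinimalModels IsMinAt
  simp only [isModel_iff]

theorem lseries_eq (V : HeightOneSpectrum (𝓞 K) → WeierstrassCurve (𝓞 K)) (s : ℂ) :
    LSeries V s = LL V s := by
  unfold LSeries LL
  refine tprod_congr fun v => ?_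
  congr 1
  unfold lf trc dlt
  have h0 : ((nm v : ℕ) : ℂ) ≠ 0 := by
    have := two_le_nm v
    exact_mod_cast (by omega : nm v ≠ 0)
  have e1 : Nat.card {xy : (𝓞 K ⧸ v.asIdeal) × (𝓞 K ⧸ v.asIdeal) //
      ((V v).map (Ideal.Quotient.mk v.asIdeal)).toAffine.Equation xy.1 xy.2} =
      aff (red v (V v)) := by
    unfold aff red
    refine Nat.card_congr (Equiv.subtypeEquivRight fun xy => ?_)
    rw [WeierstrassCurve.Affine.equation_iff]
  have e2 : ((nm v : ℕ) : ℂ) ^ (1 - 2 * s) = ((nm v : ℕ) : ℂ) * ((nm v : ℕ) : ℂ) ^ (-2 * s) := by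
    rw [sub_eq_add_neg, Complex.cpow_add _ _ h0, Complex.cpow_one]
    congr 2
    ring
  have e3 : (Ideal.absNorm v.asIdeal : ℂ) = ((nm v : ℕ) : ℂ) := rfl
  rw [e1, e2, e3]
  push_cast
  split_ifs with h
  · ring
  · ring

theorem ll_unique {E : WeierstrassCurve K} (hE : E.IsElliptic)
    {V V' : HeightOneSpectrum (𝓞 K) → WeierstrassCurve (𝓞 K)} (hV : ∀ v, IsMinAt E v (V v))
    (hV' : ∀ v, IsMinAt E v (V' v)) (s : ℂ) : LL V s = LL V' s := by
  classical
  have h : ∀ v, lf V s v = lf V' s v := by
    intro v
    obtain ⟨h1, h2⟩ := aff_minimal v hE (hV v) (hV' v)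
    have e1 : trc V v = trc V' v := by
      rw [trc, trc, h1]
    have e2 : dlt V v = dlt V' v := by
      rw [dlt, dlt]
      simp only [h2]
    rw [lf, lf, e1, e2]
  rw [LL, LL]
  simp only [h]

theorem isContinuation_iff {E : WeierstrassCurve K} (hE : E.IsElliptic)
    {V : HeightOneSpectrum (𝓞 K) → WeierstrassCurve (𝓞 K)} (hV : ∀ v, IsMinAt E v (V v))
    (Λ : ℂ → ℂ) :
    IsContinuation E Λ ↔ MeromorphicOn Λ Set.univ ∧ ∀ s : ℂ, 3 / 2 < s.re → Λ s = LL V s := by
  unfold IsContinuation
  constructor
  · rintro ⟨h1, h2⟩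
    refine ⟨h1, fun s hs => ?_⟩
    rw [h2 V ((minimalModels_iff E V).2 hV) s hs, lseries_eq]
  · rintro ⟨h1, h2⟩
    refine ⟨h1, fun V' hV' s hs => ?_⟩
    rw [h2 s hs, lseries_eq, ll_unique hE hV ((minimalModels_iff E V').1 hV')]

open Classical in
theorem rank_eq {E : WeierstrassCurve K} (hE : E.IsElliptic) :
    Module.rank ℤ E.toAffine.Point = rank E := by
  have := Pool.Agent.K4H83.OA.mordell_weil K E hE
  rw [rank, Module.finrank_eq_rank]

omit [NumberField K] in
open Classical in
theorem rank_pt {E : WeierstrassCurve K} (hE : E.IsElliptic) (F : Type) [Field F] [NumberField F]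
    [Algebra K F] : Module.rank ℤ (Pool.Agent.R333.BR.Pt E F) = rank (E.map (algebraMap K F)) :=
  rank_eq (E := E.map (algebraMap K F)) inferInstance

end Aux

/-- continuations of powers -/
theorem isContinuationOfPower_iff {K : Type} [Field K] [NumberField K] {N : ℕ}
    {E : WeierstrassCurve K} (hE : E.IsElliptic)
    {V : HeightOneSpectrum (𝓞 K) → WeierstrassCurve (𝓞 K)}
    (hV : ∀ v, Pool.Agent.H341R2.EC.IsMinAt E v (V v)) (Λ : ℂ → ℂ) :
    IsContinuationOfPower N E Λ ↔ MeromorphicOn Λ Set.univ ∧
      ∀ s : ℂ, 3 / 2 < s.re → Λ s = Pool.Agent.R433.MD.LL V s ^ N := by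
  unfold IsContinuationOfPower
  constructor
  · rintro ⟨h1, h2⟩
    refine ⟨h1, fun s hs => ?_⟩
    rw [h2 V ((minimalModels_iff E V).2 hV) s hs, lseries_eq]
  · rintro ⟨h1, h2⟩
    refine ⟨h1, fun V' hV' s hs => ?_⟩
    rw [h2 s hs, lseries_eq, ll_unique hE hV ((minimalModels_iff E V').1 hV')]

/-- ranks and orders -/
theorem rank_and_order {K L : Type} [Field K] [NumberField K] [Field L] [NumberField L]
    [Algebra K L] [IsGalois K L] (N : ℕ) (hN : N ≠ 0) (S : Finset (IntermediateField K L))
    (n : IntermediateField K L → ℤ)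
    (hsum : ∀ g : Gal(L/K), ∑ F ∈ S, n F * Pool.Agent.R433.MD.fx F.fixingSubgroup g = (N : ℤ))
    (E : WeierstrassCurve K) (hE : E.IsElliptic) : RankAndOrderRelation N S n E := by
  classical
  have hne : Nonempty S := by
    by_contra hempty
    rw [not_nonempty_iff] at hempty
    have h1 := hsum 1
    rw [← Finset.sum_coe_sort, Finset.univ_eq_empty, Finset.sum_empty] at h1
    exact hN (by exact_mod_cast h1.symm)
  let Z : S → Pool.Agent.R433.MD.Ext K := fun F => ⟨F.1⟩
  let f : ∀ F : S, (Z F).F →ₐ[K] L := fun F => F.1.val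
  have hrel : ∀ g : Gal(L/K), ∑ F : S,
      n F.1 * Pool.Agent.R433.MD.fx (f F).fieldRange.fixingSubgroup g = ((N : ℕ) : ℤ) := by
    intro g
    have h1 := hsum g
    rw [← Finset.sum_coe_sort] at h1
    rw [← h1]
    refine Finset.sum_congr rfl fun F _ => ?_
    have h2 : (f F).fieldRange = F.1 := IntermediateField.fieldRange_val F.1
    rw [h2]
  have hrk := fun F : S => rank_pt hE (F.1 : Type)
  constructor
  · obtain ⟨r0, h1, h2⟩ := Pool.Agent.R333.BR.rank_rel E (fun F : S => (Z F).F) f
      (fun F => n F.1) ((N : ℕ) : ℤ) hrel (fun F => rank (E.map (algebraMap K F.1))) hrk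
    rw [rank_eq hE] at h1
    have h3 : rank E = r0 := by exact_mod_cast h1
    rw [h3, ← Finset.sum_coe_sort]
    exact h2
  · intro Λ hΛ
    obtain ⟨V0, hV0⟩ := Pool.Agent.R433.MD.exists_minimal E hE
    choose W hW using fun F : IntermediateField K L =>
      Pool.Agent.R433.MD.exists_minimal (E.map (algebraMap K F)) inferInstance
    have hΛ' : ∀ F : S, MeromorphicOn (Λ F.1) Set.univ ∧
        ∀ s : ℂ, 3 / 2 < s.re → Λ F.1 s = Pool.Agent.R433.MD.LL (W F.1) s := fun F =>
      (isContinuation_iff inferInstance (hW F.1) _).1 (hΛ F.1 F.2)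
    have hord : ∀ F : S, meromorphicOrderAt (Λ F.1) 1 ≠ ⊤ := by
      intro F
      refine Pool.Agent.R333.BR.order_ne_top isPreconnected_univ (fun s _ => trivial) trivial
        (hΛ' F).1 fun s hs => ?_
      rw [(hΛ' F).2 s hs]
      exact Pool.Agent.R433.MD.LL_ne_zero inferInstance (hW F.1) hs
    choose r hr using fun F : S => WithTop.ne_top_iff_exists.1 (hord F)
    let r' : IntermediateField K L → ℤ := fun F => if h : F ∈ S then r ⟨F, h⟩ else 0
    have hr' : ∀ F : S, r' F.1 = r F := by
      intro F
      simp only [r', F.2, dif_pos]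
    have hsum' : ∑ F : S, n F.1 * r F = ∑ F ∈ S, n F * r' F := by
      rw [← Finset.sum_coe_sort S fun F => n F * r' F]
      exact Finset.sum_congr rfl fun F _ => by rw [hr']
    refine ⟨r', fun F hF => ?_, ?_, fun Λ₀ hΛ₀ => ?_, fun Λ₀ hΛ₀ => ?_⟩
    · have h1 := hr ⟨F, hF⟩
      rw [← h1, ← hr' ⟨F, hF⟩]
    · obtain ⟨Λ1, h2, h3⟩ := Pool.Agent.H46.OP.cont_pow (U := Set.univ) Z f
        (fun F => n F.1) N hrel E hE V0 hV0 (fun F => W F.1) (fun F w => hW F.1 w)
        (Λ := fun F => Λ F.1) (fun F => (hΛ' F).1) (fun F s hs => (hΛ' F).2 s hs)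
      exact ⟨Λ1, (isContinuationOfPower_iff hE hV0 _).2 ⟨h2, h3⟩⟩
    · obtain ⟨h1, h2⟩ := (isContinuationOfPower_iff hE hV0 _).1 hΛ₀
      rw [← hsum']
      exact Pool.Agent.H46.OP.ord_pow (U := Set.univ) isPreconnected_univ
        (fun s _ => trivial) trivial Z f (fun F => n F.1) N hrel E hE V0 hV0
        (fun F => W F.1) (fun F w => hW F.1 w) h1 h2
        (Λ := fun F => Λ F.1) (fun F => (hΛ' F).1) (fun F s hs => (hΛ' F).2 s hs) r
        (fun F => (hr F).symm)
    · obtain ⟨h1, h2⟩ := (isContinuation_iff hE hV0 _).1 hΛ₀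
      obtain ⟨r0, h3, h4⟩ := Pool.Agent.R333.BR.ord_rel (U := Set.univ) isPreconnected_univ
        (fun s _ => trivial) trivial Z f (fun F => n F.1) N hrel E hE V0 hV0
        (fun F => W F.1) (fun F w => hW F.1 w) h1 h2
        (Λ := fun F => Λ F.1) (fun F => (hΛ' F).1) (fun F s hs => (hΛ' F).2 s hs) r
        (fun F => (hr F).symm)
      exact ⟨r0, h3, by rw [h4, hsum']⟩

/-- the relation -/
theorem relation_exists (K : Type) [Field K] [NumberField K] (E : WeierstrassCurve K)
    (hE : E.IsElliptic) (X : ℕ) (T : Type) [Field T] [NumberField T] [Algebra K T] :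
    ∃ (L : Type) (_ : Field L) (_ : NumberField L) (_ : Algebra K L)
      (N : ℕ) (S : Finset (IntermediateField K L)) (n : IntermediateField K L → ℤ),
      IsGalois K L ∧ N ≠ 0 ∧ (∀ F ∈ S, Special X K T F (E.map (algebraMap K F))) ∧
        (∀ g : Gal(L/K), ∑ F ∈ S, n F * (embeddings F g : ℤ) = N) ∧
        ∀ E' : WeierstrassCurve K, E'.IsElliptic → RankAndOrderRelation N S n E' := by
  obtain ⟨L, _, _, _, hG, ⟨N, hN, hspan⟩, -⟩ := Pool.Agent.H46.OP.exists_rel K E X T
  obtain ⟨S, n, hS, hsum⟩ := Pool.Agent.H46.OP.exists_finset _ _ hspan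
  refine ⟨L, inferInstance, inferInstance, inferInstance, N, S, n, hG, hN, ?_, ?_, ?_⟩
  · intro F hF
    have h1 := hS F hF
    rw [IsGalois.fixedField_fixingSubgroup] at h1
    exact h1
  · intro g
    rw [← hsum g]
    exact Finset.sum_congr rfl fun F _ => by
      rw [Pool.Agent.R433.MD.fx_eq_emb]
      rfl
  · intro E' hE'
    exact rank_and_order N hN S n hsum E' hE'

/-- **The rank conjecture: one bad prime suffices.**

1. Let `E` be an elliptic curve over a number field `K`, let `X` be given and let `T / K` be a finite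
extension. There are a finite Galois extension `L / K`, finitely many intermediate fields `F`, integers
`n_F` and `N ≠ 0`, such that: every `F` has at most one prime which has norm `≤ X` or at which the
reduction of `E` is neither good nor split multiplicative; every `F` has a cyclic extension `F'`, containing
`T`, over which `E` has good or split multiplicative reduction everywhere;
`∑ n_F · embeddings F g = N` for all `g ∈ Gal(L/K)`; and for ALL elliptic curves `E'` over `K`:
`N · rank E'(K) = ∑ n_F rank E'(F)`, and if the `L(E'/F, s)` have meromorphic continuations to the plane,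
then so has `L(E'/K, s) ^ N`, with order `∑ n_F ord_{s=1} L(E'/F, s)` at `s = 1`.

2. Let `E`, `K`, `X` and `T` be given. If the rank formula holds for `E` over all finite extensions
`F` of `K` with these two properties, then the rank conjecture (Q1) holds for `E` over `K`, and a power
`L(E/K, s) ^ N` has a meromorphic continuation of order `N · rank E(K)` at `s = 1`.

3. If for one `X` the rank formula holds for all elliptic curves `E` over number fields `F` such that `F`
has at most one prime which has norm `≤ X` or at which the reduction of `E` is neither good nor split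
multiplicative, and such that `E` has good or split multiplicative reduction everywhere over a cyclic
extension of `F`, then the rank conjecture (Q1) holds for all elliptic curves over all number fields. -/
theorem result :
    (∀ (K : Type) [Field K] [NumberField K] (E : WeierstrassCurve K), E.IsElliptic →
      ∀ (X : ℕ) (T : Type) [Field T] [NumberField T] [Algebra K T],
      ∃ (L : Type) (_ : Field L) (_ : NumberField L) (_ : Algebra K L)
        (N : ℕ) (S : Finset (IntermediateField K L)) (n : IntermediateField K L → ℤ),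
        IsGalois K L ∧ N ≠ 0 ∧ (∀ F ∈ S, Special X K T F (E.map (algebraMap K F))) ∧
          (∀ g : Gal(L/K), ∑ F ∈ S, n F * (embeddings F g : ℤ) = N) ∧
          ∀ E' : WeierstrassCurve K, E'.IsElliptic → RankAndOrderRelation N S n E') ∧
    (∀ (K : Type) [Field K] [NumberField K] (E : WeierstrassCurve K), E.IsElliptic →
      ∀ (X : ℕ) (T : Type) [Field T] [NumberField T] [Algebra K T],
      (∀ (F : Type) [Field F] [NumberField F] [Algebra K F],
        Special X K T F (E.map (algebraMap K F)) → RankFormula (E.map (algebraMap K F))) →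
      RankConjectureAndPower E) ∧
    (∀ X : ℕ,
      (∀ (F : Type) [Field F] [NumberField F] (E : WeierstrassCurve F), E.IsElliptic →
        Special X F F F E → RankFormula E) →
      ∀ (K : Type) [Field K] [NumberField K] (E : WeierstrassCurve K), E.IsElliptic →
        RankConjectureAndPower E) := by
  have h2 : ∀ (K : Type) [Field K] [NumberField K] (E : WeierstrassCurve K), E.IsElliptic →
      ∀ (X : ℕ) (T : Type) [Field T] [NumberField T] [Algebra K T],
      (∀ (F : Type) [Field F] [NumberField F] [Algebra K F],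
        Special X K T F (E.map (algebraMap K F)) → RankFormula (E.map (algebraMap K F))) →
      RankConjectureAndPower E := by
    classical
    intro K _ _ E hE X T _ _ _ h
    obtain ⟨L, _, _, _, N, S, n, hG, hN, hS, -, hE'⟩ := relation_exists K E hE X T
    obtain ⟨hrank, hord⟩ := hE' E hE
    have h3 : ∀ F : IntermediateField K L, ∃ Λ : ℂ → ℂ, F ∈ S →
        IsContinuation (E.map (algebraMap K F)) Λ ∧
          meromorphicOrderAt Λ 1 = ((rank (E.map (algebraMap K F)) : ℤ) : WithTop ℤ) := by
      intro F
      by_cases hF : F ∈ S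
      · obtain ⟨⟨Λ, h4⟩, h5⟩ := h F (hS F hF)
        exact ⟨Λ, fun _ => ⟨h4, h5 Λ h4⟩⟩
      · exact ⟨0, fun h => absurd h hF⟩
    choose Λ hΛ using h3
    obtain ⟨r, h5, ⟨Λ1, h6⟩, h7, h8⟩ := hord Λ fun F hF => (hΛ F hF).1
    have h9 : ∑ F ∈ S, n F * r F = (N : ℤ) * (rank E : ℤ) := by
      rw [hrank]
      refine Finset.sum_congr rfl fun F hF => ?_
      have h7 := (h5 F hF).symm.trans (hΛ F hF).2
      rw [WithTop.coe_injective h7]
    refine ⟨fun Λ₀ hΛ₀ => ?_, N, hN, Λ1, h6, ?_⟩
    · obtain ⟨r0, h10, h11⟩ := h8 Λ₀ hΛ₀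
      rw [h9] at h11
      have h12 : r0 = (rank E : ℤ) := mul_left_cancel₀ (by exact_mod_cast hN) h11
      rw [h10, h12]
    · rw [h7 Λ1 h6, h9]
  refine ⟨fun K _ _ E hE X T _ _ _ => relation_exists K E hE X T, h2, ?_⟩
  intro X h K _ _ E hE
  refine h2 K E hE X K fun F _ _ _ hF => h F _ inferInstance ⟨hF.1, ?_⟩
  obtain ⟨F', _, _, _, hG, hcyc, -, hred⟩ := hF.2
  exact ⟨F', inferInstance, inferInstance, inferInstance, hG, hcyc, ⟨algebraMap F F', fun x => rfl⟩,
    hred⟩

end Pool.Agent.Results.MP_cd906c_nt.OneBadPrime
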