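import Pool.Agent.H21.RD.Sys

/-!
# The rank conjecture for several curves and one law for one product

Let `E_i / K_i`, `i ∈ ι`, be finitely many elliptic curves over number fields (the fields may be
different), `E_i : y² = x³ + a_i x + b_i` with integers `a_i`, `b_i` of `K_i`, let
`P_i(x) = ∏_{q_v ≤ x} #E_i(k_v)/q_v` be the product of Birch and Swinnerton-Dyer over the places `v` of
`K_i` that do not divide `6 (4a_i³ + 27b_i²)`, let the `L`-series have continuations `F_i` that are
holomorphic for `Re s > 1` and at `s = 1`, and let `r_i = ord_{s=1} F_i`.  Let `w_i` be REAL weights of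
any signs.  The logarithmic mean of the deviation

`(log Y)⁻¹ ∫_e^Y |∑ w_i log P_i(y) - ρ log log y| dy/y`

of the ONE function `∏ P_i(y)^(w_i)` is considered.  It is shown, with NO hypothesis on the growth of
the `F_i`:

* if the mean is bounded, then `∑ w_i r_i = ρ` and `∑ w_i ord_s F_i = 0` for every `s` with `Re s > 1`;
* the same with the positive part of the deviation gives `∑ w_i r_i ≤ ρ` and `∑ w_i ord_s F_i = 0`, if
  the numbers `∑ w_i ord_s F_i` are nonnegative at the real points `s > 1`;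
* if the `w_i` are linearly independent over `ℚ`, then the boundedness for `ρ = ∑ w_i rank E_i(K_i)`
  implies Q1 for ALL the `E_i / K_i`; if the `F_i` have polynomial growth in half-planes
  `Re s > 1 - η_i`, it is EQUIVALENT to `ord_{s=1} F_i = rank E_i(K_i)` and the absence of
  zeros with `Re s > 1` for all `i`;
* the boundedness for `log (P_i / P_j)` and `ρ = rank E_i(K_i) - rank E_j(K_j)` implies that Q1 holds for
  `E_i / K_i` if and only if it holds for `E_j / K_j`, and that `F_i` and `F_j` have the same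
  zeros, with multiplicities, for `Re s > 1`.

The zeros of different `L`-functions may cancel, so that no `F_i` needs to be free of zeros in the first
two items.  The new step is the continuation of `∑ w_i log F_i` along its half-plane of convergence,
where the `F_i` may have zeros: its derivative is a combination of the meromorphic functions `F_i'/F_i`,
and its real part is recovered by a connectedness argument.
-/

set_option autoImplicit false

namespace Pool.Agent.Results.MP_cd906c_nt.OneLawManyCurves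

open Filter Topology MeasureTheory NumberField IsDedekindDomain

section defs

variable {K : Type} [Field K] [NumberField K]

/-- `q_v`, the number of elements of the residue field `k_v`. -/
noncomputable def q (v : HeightOneSpectrum (𝓞 K)) : ℕ := Ideal.absNorm v.asIdeal

/-- The place `v` does not divide `6 (4a³ + 27b²)`. -/
def Good (a b : 𝓞 K) (v : HeightOneSpectrum (𝓞 K)) : Prop :=
  6 * (4 * a ^ 3 + 27 * b ^ 2) ∉ v.asIdeal

/-- `#E(k_v)` with the point at infinity, for `E : y² = x³ + a x + b`. -/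
noncomputable def numPoints (a b : 𝓞 K) (v : HeightOneSpectrum (𝓞 K)) : ℕ :=
  Nat.card {P : (𝓞 K ⧸ v.asIdeal) × (𝓞 K ⧸ v.asIdeal) // P.2 ^ 2 =
    P.1 ^ 3 + Ideal.Quotient.mk v.asIdeal a * P.1 + Ideal.Quotient.mk v.asIdeal b} + 1

/-- The product of Birch and Swinnerton-Dyer `P(x) = ∏_{v good, q_v ≤ x} #E(k_v) / q_v`. -/
noncomputable def P (a b : 𝓞 K) (x : ℝ) : ℝ :=
  ∏ᶠ (v : HeightOneSpectrum (𝓞 K)) (_ : Good a b v ∧ (q v : ℝ) ≤ x), (numPoints a b v : ℝ) / q v

/-- The Euler factor `(1 - a_v q_v^{-s} + q_v^{1-2s})⁻¹`, `a_v = q_v + 1 - #E(k_v)`. -/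
noncomputable def factor (a b : 𝓞 K) (s : ℂ) (v : HeightOneSpectrum (𝓞 K)) : ℂ :=
  (1 - ((q v : ℂ) + 1 - numPoints a b v) * (q v : ℂ) ^ (-s) + (q v : ℂ) ^ (1 - 2 * s))⁻¹

/-- `F` continues the `L`-series of `E/K` (without the Euler factors at the places dividing `6 (4a³ + 27b²)`) to
a function that is holomorphic for `Re s > 1` and at `s = 1`. -/
structure IsLSeries (a b : 𝓞 K) (F : ℂ → ℂ) : Prop where
  diff : ∀ s : ℂ, 1 < s.re → DifferentiableAt ℂ F s
  one : AnalyticAt ℂ F 1
  prod : ∀ s : ℂ, 3 / 2 < s.re → HasProd (fun v : {v // Good a b v} => factor a b s v.1) (F s)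

/-- The rank of `E(K)`. -/
noncomputable def rank (a b : 𝓞 K) : ℕ :=
  open scoped Classical in
  Module.finrank ℤ
    (WeierstrassCurve.Affine.Point
      (WeierstrassCurve.toAffine
        ({ a₁ := 0, a₂ := 0, a₃ := 0, a₄ := (a : K), a₆ := (b : K) } : WeierstrassCurve K)))

/-- `F` has no zeros with `Re s > 1`. -/
def NoZeros (F : ℂ → ℂ) : Prop := ∀ s : ℂ, 1 < s.re → F s ≠ 0

/-- `F` has polynomial growth in a half-plane `Re s > 1 - η`, `η > 0`. -/
def PolyGrowth (F : ℂ → ℂ) : Prop :=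
  ∃ (η C : ℝ) (κ : ℕ), 0 < η ∧ ∀ s : ℂ, 1 - η < s.re →
    DifferentiableAt ℂ F s ∧ ‖F s‖ ≤ C * (1 + ‖s‖) ^ κ

end defs

section family

variable {ι : Type} [Fintype ι] {K : ι → Type} [∀ i, Field (K i)] [∀ i, NumberField (K i)]

/-- `∑_i w_i log P_i(y)`, the logarithm of `∏_i P_i(y)^(w_i)` -/
noncomputable def LogP (a b : ∀ i, 𝓞 (K i)) (w : ι → ℝ) (y : ℝ) : ℝ :=
  ∑ i, w i * Real.log (P (a i) (b i) y)

/-- `∫_e^Y |∑ w_i log P_i(y) - ρ log log y| dy/y ≤ B log Y` for large `Y` -/
def MeanLaw (a b : ∀ i, 𝓞 (K i)) (w : ι → ℝ) (ρ : ℝ) : Prop :=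
  ∃ B : ℝ, ∀ᶠ Y : ℝ in atTop, ∫ y in Real.exp 1..Y,
    |LogP a b w y - ρ * Real.log (Real.log y)| / y ≤ B * Real.log Y

/-- `∫_e^Y (∑ w_i log P_i(y) - ρ log log y)⁺ dy/y ≤ B log Y` for large `Y` -/
def UpperLaw (a b : ∀ i, 𝓞 (K i)) (w : ι → ℝ) (ρ : ℝ) : Prop :=
  ∃ B : ℝ, ∀ᶠ Y : ℝ in atTop, ∫ y in Real.exp 1..Y,
    max (LogP a b w y - ρ * Real.log (Real.log y)) 0 / y ≤ B * Real.log Y

/-- `∑_i w_i ord_s F_i` -/
noncomputable def wt (F : ι → ℂ → ℂ) (w : ι → ℝ) (s : ℂ) : ℝ :=
  ∑ i, w i * (analyticOrderNatAt (F i) s : ℝ)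

end family

/-! ### Translation to the definitions of the imported files -/

open Pool.Agent.W5h26.ML Pool.Agent.TH942.ES Pool.Agent.TH270.MS Pool.Agent.H21.RD

section translation

variable {K : Type} [Field K] [NumberField K] {a b : 𝓞 K}

theorem P_eq (x : ℝ) : P a b x = PC a b x := by
  unfold P PC numPoints
  refine finprod_congr fun v => ?_
  refine finprod_congr fun _ => ?_
  push_cast
  rfl

theorem factor_eq (s : ℂ) (v : HeightOneSpectrum (𝓞 K)) : factor a b s v = efV a b v s := by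
  have h1 : (q v : ℂ) + 1 - (numPoints a b v : ℂ) = (q v : ℂ) - ptsV a b v := by
    unfold numPoints ptsV
    push_cast
    ring
  unfold factor efV
  rw [h1]
  rfl

theorem log_P (x : ℝ) : Real.log (P a b x) = LP (NC a b) (alV a b) x := by
  rw [P_eq, log_PC]

theorem mh {F : ℂ → ℂ} (hF : IsLSeries a b F) : Mh (NC a b) (alV a b) (fun s => F (1 + s)) 0 :=
  curve_mh hF.diff hF.one fun s hs => by
    have := hF.prod s hs
    simp only [factor_eq] at this
    exact this

theorem noZeros_iff (F : ℂ → ℂ) : NoZeros F ↔ ∀ s : ℂ, 0 < s.re → F (1 + s) ≠ 0 := by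
  constructor
  · intro h s hs
    exact h _ (by rw [Complex.add_re, Complex.one_re]; linarith)
  · intro h s hs
    have := h (s - 1) (by rw [Complex.sub_re, Complex.one_re]; linarith)
    rwa [add_sub_cancel] at this

theorem law_one {F : ℂ → ℂ} (hF : IsLSeries a b F) (hg : PolyGrowth F) (h : NoZeros F) {r : ℕ}
    (hr : analyticOrderAt F 1 = r) : Law fun y => |dev (NC a b) (alV a b) (r : ℝ) y| := by
  obtain ⟨η, C, κ, hη, hg⟩ := hg
  have Hc : Mc (NC a b) (alV a b) (fun s => F (1 + s)) (fun s => F (1 + s)) 0 κ η (|C| * 2 ^ κ) :=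
    curve_mc hη (fun s hs => (hg s hs).1) (fun s hs => (hg s hs).2) fun s hs => by
      have := hF.prod s hs
      simp only [factor_eq] at this
      exact this
  have h1 := (law_of Hc ((order_shift hF.one r).2 hr) ((noZeros_iff F).1 h)).1
  simpa only [Nat.cast_zero, sub_zero] using h1

end translation

variable {ι : Type} [Fintype ι] {K : ι → Type} [∀ i, Field (K i)] [∀ i, NumberField (K i)]
  {a b : ∀ i, 𝓞 (K i)} {F : ι → ℂ → ℂ} {w : ι → ℝ}

theorem LogP_eq (y : ℝ) :
    LogP a b w y = LW w (fun i => NC (a i) (b i)) (fun i => alV (a i) (b i)) y := by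
  unfold LogP LW
  exact Finset.sum_congr rfl fun i _ => by rw [log_P]

theorem mean_iff (ρ : ℝ) : MeanLaw a b w ρ ↔
    Law fun y => |devW w (fun i => NC (a i) (b i)) (fun i => alV (a i) (b i)) ρ y| := by
  unfold MeanLaw Law devW
  simp only [LogP_eq]

theorem upper_iff (ρ : ℝ) : UpperLaw a b w ρ ↔
    Law fun y => max (devW w (fun i => NC (a i) (b i)) (fun i => alV (a i) (b i)) ρ y) 0 := by
  unfold UpperLaw Law devW
  simp only [LogP_eq]

theorem wt_eq (s : ℂ) : Pool.Agent.H21.RC.mult w (fun i s => F i (1 + s)) s = wt F w (1 + s) := by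
  unfold Pool.Agent.H21.RC.mult wt
  exact Finset.sum_congr rfl fun i _ => by rw [nat_shift]

theorem wt_zero (h : ∀ s : ℂ, 0 < s.re → Pool.Agent.H21.RC.mult w (fun i s => F i (1 + s)) s = 0)
    (s : ℂ) (hs : 1 < s.re) : wt F w s = 0 := by
  have h1 := h (s - 1) (by rw [Complex.sub_re, Complex.one_re]; linarith)
  rwa [wt_eq, add_sub_cancel] at h1

/-- **One law for one product and the rank conjecture for all the curves.** -/
theorem result {ι : Type} [Fintype ι] (K : ι → Type) [∀ i, Field (K i)] [∀ i, NumberField (K i)]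
    (a b : ∀ i, 𝓞 (K i)) (_hΔ : ∀ i, 4 * a i ^ 3 + 27 * b i ^ 2 ≠ 0) (F : ι → ℂ → ℂ)
    (hF : ∀ i, IsLSeries (a i) (b i) (F i)) :
    ∃ r : ι → ℕ, (∀ i, analyticOrderAt (F i) 1 = r i) ∧
      (∀ (w : ι → ℝ) (ρ : ℝ), MeanLaw a b w ρ →
        (∀ s : ℂ, 1 < s.re → wt F w s = 0) ∧ ∑ i, w i * r i = ρ) ∧
      (∀ (w : ι → ℝ) (ρ : ℝ), (∀ x : ℝ, 1 < x → 0 ≤ wt F w x) → UpperLaw a b w ρ →
        (∀ s : ℂ, 1 < s.re → wt F w s = 0) ∧ ∑ i, w i * r i ≤ ρ) ∧
      (∀ w : ι → ℝ, LinearIndependent ℚ w →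
        (MeanLaw a b w (∑ i, w i * rank (a i) (b i)) →
          ∀ i, analyticOrderAt (F i) 1 = (rank (a i) (b i) : ℕ∞) ∧ NoZeros (F i)) ∧
        ((∀ i, PolyGrowth (F i)) →
          (MeanLaw a b w (∑ i, w i * rank (a i) (b i)) ↔
            ∀ i, analyticOrderAt (F i) 1 = (rank (a i) (b i) : ℕ∞) ∧ NoZeros (F i)) ∧
          ((∃ ρ : ℝ, MeanLaw a b w ρ) ↔ ∀ i, NoZeros (F i)))) ∧
      ∀ i j : ι, (∃ B : ℝ, ∀ᶠ Y : ℝ in atTop, ∫ y in Real.exp 1..Y,
          |Real.log (P (a i) (b i) y) - Real.log (P (a j) (b j) y) -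
            ((rank (a i) (b i) : ℝ) - rank (a j) (b j)) * Real.log (Real.log y)| / y ≤
              B * Real.log Y) →
        (analyticOrderAt (F i) 1 = (rank (a i) (b i) : ℕ∞) ↔
          analyticOrderAt (F j) 1 = (rank (a j) (b j) : ℕ∞)) ∧
        ∀ s : ℂ, 1 < s.re → analyticOrderNatAt (F i) s = analyticOrderNatAt (F j) s := by
  have H : ∀ i, Mh (NC (a i) (b i)) (alV (a i) (b i)) (fun s => F i (1 + s)) 0 := fun i => mh (hF i)
  choose e g r he hr Q using fun i => (H i).hy
  have hr' : ∀ i, analyticOrderAt (F i) 1 = r i := fun i => (order_shift (hF i).one (r i)).1 (hr i)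
  have both : ∀ (w : ι → ℝ) (ρ : ℝ), MeanLaw a b w ρ →
      (∀ s : ℂ, 0 < s.re → Pool.Agent.H21.RC.mult w (fun i s => F i (1 + s)) s = 0) ∧
        ∑ i, w i * r i = ρ := fun w ρ h => sys_both H hr ((mean_iff ρ).1 h)
  have ind : ∀ w : ι → ℝ, LinearIndependent ℚ w → ∀ ρ : ℝ, MeanLaw a b w ρ →
      ∀ i, NoZeros (F i) := by
    intro w hw ρ h i
    rw [noZeros_iff]
    intro s hs
    exact indep_sys H hr hw hs ((both w ρ h).1 s hs) i
  have all : ∀ w : ι → ℝ, LinearIndependent ℚ w →
      MeanLaw a b w (∑ i, w i * rank (a i) (b i)) →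
        ∀ i, analyticOrderAt (F i) 1 = (rank (a i) (b i) : ℕ∞) ∧ NoZeros (F i) := by
    intro w hw h i
    refine ⟨?_, ind w hw _ h i⟩
    have h1 : r = fun i => rank (a i) (b i) := indep_nat hw (both w _ h).2
    rw [hr' i, h1]
  have conv : ∀ w : ι → ℝ, (∀ i, PolyGrowth (F i)) → (∀ i, NoZeros (F i)) →
      MeanLaw a b w (∑ i, w i * r i) := fun w hg h =>
    (mean_iff _).2 (law_sum (fun i => (H i).E) fun i => law_one (hF i) (hg i) (h i) (hr' i))
  refine ⟨r, hr', fun w ρ h => ⟨wt_zero (both w ρ h).1, (both w ρ h).2⟩, fun w ρ hsg h => ?_,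
    fun w hw => ⟨all w hw, fun hg => ⟨⟨all w hw, fun h => ?_⟩, ⟨fun ⟨ρ, h⟩ => ind w hw ρ h,
      fun h => ⟨_, conv w hg h⟩⟩⟩⟩, fun i j h => ?_⟩
  · obtain ⟨h1, h2⟩ := sys_upper H hr ((upper_iff ρ).1 h) (fun x hx => by
      rw [wt_eq]
      have := hsg (1 + x) (by linarith)
      push_cast at this
      exact this)
    exact ⟨wt_zero h1, h2⟩
  · have h1 : r = fun i => rank (a i) (b i) := by
      funext i
      have h2 := (h i).1
      rw [hr' i] at h2
      exact_mod_cast h2
    have h3 := conv w hg fun i => (h i).2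
    rw [h1] at h3
    exact h3
  · classical
    by_cases hij : i = j
    · subst hij
      exact ⟨Iff.rfl, fun s _ => rfl⟩
    set w : ι → ℝ := fun k => (if k = i then 1 else 0) - (if k = j then 1 else 0) with hw
    have hsum : ∀ g : ι → ℝ, ∑ k, w k * g k = g i - g j := by
      intro g
      simp only [hw, sub_mul, ite_mul, one_mul, zero_mul, Finset.sum_sub_distrib,
        Finset.sum_ite_eq', Finset.mem_univ, if_true]
    have h1 : MeanLaw a b w ((rank (a i) (b i) : ℝ) - rank (a j) (b j)) := by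
      unfold MeanLaw LogP
      have e : ∀ y : ℝ, ∑ k, w k * Real.log (P (a k) (b k) y) =
          Real.log (P (a i) (b i) y) - Real.log (P (a j) (b j) y) := fun y => hsum _
      simp only [e]
      exact h
    obtain ⟨h2, h3⟩ := both w _ h1
    rw [hsum fun k => (r k : ℝ)] at h3
    refine ⟨?_, fun s hs => ?_⟩
    · rw [hr' i, hr' j]
      constructor
      · intro h4
        have h5 : (r i : ℝ) = rank (a i) (b i) := by exact_mod_cast h4
        have h6 : (r j : ℝ) = rank (a j) (b j) := by linarith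
        exact_mod_cast h6
      · intro h4
        have h5 : (r j : ℝ) = rank (a j) (b j) := by exact_mod_cast h4
        have h6 : (r i : ℝ) = rank (a i) (b i) := by linarith
        exact_mod_cast h6
    · have h4 := wt_zero h2 s hs
      unfold wt at h4
      rw [hsum fun k => (analyticOrderNatAt (F k) s : ℝ), sub_eq_zero] at h4
      exact_mod_cast h4

end Pool.Agent.Results.MP_cd906c_nt.OneLawManyCurves
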