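import Pool.Agent.H46.SP.Main
import Pool.Agent.H46.Lib.R_seed8.R333.BR.Ord
import Pool.Agent.H46.Lib.R_pool_sql_team_seeded_c8625f6e.K4H83.OA.MW

/-!
# The Birch and Swinnerton-Dyer rank conjecture: number fields with at most one small prime suffice

For every number field `K` and every `X` there are number fields `F ⊇ K`, each with at most one prime
ideal of norm `≤ X`, and integers `n_F` such that for ALL elliptic curves `E` over `K`

`rank E(K) = ∑ n_F rank E(F)`, `ord_{s=1} L(E/K, s) = ∑ n_F ord_{s=1} L(E/F, s)`,

the second as soon as the `L(E/F, s)` have meromorphic continuations, and then `L(E/K, s)` has one. So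
the rank conjecture for elliptic curves over number fields with at most one prime ideal of norm
`≤ X` implies the rank conjecture for elliptic curves over all number fields.

The fields come from a relation `∑ n_F · embeddings F g = 1` between permutation characters of the Galois
group of a finite Galois extension `L / K`, with coefficient `1` on the right. Let `𝓕` be the set of the
`F` such that all primes of `L` above small primes of `F` are conjugate and every automorphism which
maps one of them to another fixes `F`; it is closed under composita and conjugation, and by the induction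
theorem one needs for every `g` and every prime number `p` an `F ∈ 𝓕` such that the number of
embeddings fixed by `g` is prime to `p`. If `g` fixes a prime above a small prime `v` of `K` on a first
layer `M`, then one of the fields `K(α)` with `α` a root of `f` serves, where `f` is irreducible modulo the
other small primes and `x` times an irreducible polynomial modulo `v`. If not, then the field of a
`p`-hyperelementary subgroup attached to `g` serves: an element `β` of prime order `q` of a
decomposition group of it would be a power of `g`, hence in two decomposition groups, and the second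
layer `L / M` is constructed such that there is no such `β`.
-/

set_option autoImplicit false

namespace Pool.Agent.Results.MP_cd906c_nt.OneSmallPrime

open NumberField IsDedekindDomain
open scoped Pointwise

/-- `V v` is, for every prime `v`, an integral model of `E` with discriminant minimal at `v`. -/
def MinimalModels {K : Type} [Field K] [NumberField K] (E : WeierstrassCurve K)
    (V : HeightOneSpectrum (𝓞 K) → WeierstrassCurve (𝓞 K)) : Prop :=
  ∀ v : HeightOneSpectrum (𝓞 K),
    (∃ C : WeierstrassCurve.VariableChange K, C • (V v).map (algebraMap (𝓞 K) K) = E) ∧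
    ∀ W : WeierstrassCurve (𝓞 K),
      (∃ C : WeierstrassCurve.VariableChange K, C • W.map (algebraMap (𝓞 K) K) = E) →
        ∀ n : ℕ, (V v).Δ ∈ v.asIdeal ^ n → W.Δ ∈ v.asIdeal ^ n

open Classical in
/-- The Euler product of `L(E/K, s)` over all primes `v` of `K`, computed from the reductions of the
models `V v`. -/
noncomputable def LSeries {K : Type} [Field K] [NumberField K]
    (V : HeightOneSpectrum (𝓞 K) → WeierstrassCurve (𝓞 K)) (s : ℂ) : ℂ :=
  ∏' v : HeightOneSpectrum (𝓞 K),
    (1 - ((Ideal.absNorm v.asIdeal : ℂ)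
          - (Nat.card {xy : (𝓞 K ⧸ v.asIdeal) × (𝓞 K ⧸ v.asIdeal) //
              ((V v).map (Ideal.Quotient.mk v.asIdeal)).toAffine.Equation xy.1 xy.2} : ℂ))
          * (Ideal.absNorm v.asIdeal : ℂ) ^ (-s)
      + (if (V v).Δ ∈ v.asIdeal then 0 else (Ideal.absNorm v.asIdeal : ℂ))
          * (Ideal.absNorm v.asIdeal : ℂ) ^ (-2 * s))⁻¹

/-- `Λ` is a meromorphic continuation of `L(E/K, s)` to the plane. -/
def IsContinuation {K : Type} [Field K] [NumberField K] (E : WeierstrassCurve K) (Λ : ℂ → ℂ) :
    Prop :=
  MeromorphicOn Λ Set.univ ∧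
    ∀ V : HeightOneSpectrum (𝓞 K) → WeierstrassCurve (𝓞 K), MinimalModels E V →
      ∀ s : ℂ, 3 / 2 < s.re → Λ s = LSeries V s

open Classical in
/-- The rank of the group `E(K)`. -/
noncomputable def rank {K : Type} [Field K] (E : WeierstrassCurve K) : ℕ :=
  Module.finrank ℤ E.toAffine.Point

/-- The rank conjecture for `E` over `K`, with the continuation: `L(E/K, s)` has a meromorphic
continuation to the plane, and the order of every such continuation at `s = 1` is the rank of `E(K)`. -/
def RankFormula {K : Type} [Field K] [NumberField K] (E : WeierstrassCurve K) : Prop :=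
  (∃ Λ : ℂ → ℂ, IsContinuation E Λ) ∧
    ∀ Λ : ℂ → ℂ, IsContinuation E Λ → meromorphicOrderAt Λ 1 = ((rank E : ℤ) : WithTop ℤ)

/-- The number of `K`-embeddings of `F` into the subfield of `L` fixed by `g`. -/
noncomputable def embeddings {K L : Type} [Field K] [Field L] [Algebra K L]
    (F : IntermediateField K L) (g : Gal(L/K)) : ℕ :=
  Nat.card {τ : F →ₐ[K] L // ∀ x, g (τ x) = τ x}

/-- The number field `F` has at most one prime ideal of norm `≤ X`. -/
def AtMostOneSmallPrime (X : ℕ) (F : Type) [Field F] [NumberField F] : Prop :=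
  ∀ w w' : HeightOneSpectrum (𝓞 F),
    Ideal.absNorm w.asIdeal ≤ X → Ideal.absNorm w'.asIdeal ≤ X → w = w'

/-- The primes of `K` of norm `≤ X` are unramified in the Galois extension `L / K`: only the identity
acts trivially on the residue field of a prime of `L` above such a prime. -/
def UnramifiedUpTo (X : ℕ) (K L : Type) [Field K] [NumberField K] [Field L] [NumberField L]
    [Algebra K L] : Prop :=
  ∀ W : HeightOneSpectrum (𝓞 L), Ideal.absNorm (W.asIdeal.under (𝓞 K)) ≤ X →
    ∀ σ : Gal(L/K), (∀ x : 𝓞 L, σ • x - x ∈ W.asIdeal) → σ = 1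

/-- The decomposition groups in `Gal(L/K)` of the primes `W` of `L` above the primes of `F` of norm
`≤ X` fix `F`, that is, `F` and `K` have the same completion at such a prime of `F`. -/
def SameCompletions {K L : Type} [Field K] [NumberField K] [Field L] [NumberField L] [Algebra K L]
    (X : ℕ) (F : IntermediateField K L) : Prop :=
  ∀ W : HeightOneSpectrum (𝓞 L), Ideal.absNorm (W.asIdeal.under (𝓞 F)) ≤ X →
    ∀ σ : Gal(L/K), σ • W.asIdeal = W.asIdeal → σ ∈ F.fixingSubgroup

/-- `L / K` is a finite Galois extension in which no prime of `K` of norm `≤ X` ramifies; every field in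
`S` has at most one prime of norm `≤ X` and has there the same completion as `K`; and
`∑ n_F · embeddings F g = 1` for all `g`. -/
structure SmallPrimeRelation {K L : Type} [Field K] [NumberField K] [Field L] [NumberField L]
    [Algebra K L] (X : ℕ) (S : Finset (IntermediateField K L)) (n : IntermediateField K L → ℤ) :
    Prop where
  isGalois : IsGalois K L
  unramified : UnramifiedUpTo X K L
  atMostOne : ∀ F ∈ S, AtMostOneSmallPrime X F
  sameCompletions : ∀ F ∈ S, SameCompletions X F
  relation : ∀ g : Gal(L/K), ∑ F ∈ S, n F * (embeddings F g : ℤ) = 1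

/-- `rank E(K) = ∑ n_F rank E(F)`; and if the `Λ F` are continuations of the `L(E/F, s)`, `F ∈ S`, then
`L(E/K, s)` has a continuation, the orders `r_F` of the `Λ F` at `s = 1` are finite, and the order at
`s = 1` of every continuation of `L(E/K, s)` is `∑ n_F r_F`. -/
def RankAndOrderRelation {K L : Type} [Field K] [NumberField K] [Field L] [NumberField L]
    [Algebra K L] (S : Finset (IntermediateField K L)) (n : IntermediateField K L → ℤ)
    (E : WeierstrassCurve K) : Prop :=
  (rank E : ℤ) = ∑ F ∈ S, n F * (rank (E.map (algebraMap K F)) : ℤ) ∧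
  ∀ Λ : IntermediateField K L → ℂ → ℂ,
    (∀ F ∈ S, IsContinuation (E.map (algebraMap K F)) (Λ F)) →
    (∃ Λ₀ : ℂ → ℂ, IsContinuation E Λ₀) ∧
    ∃ r : IntermediateField K L → ℤ, (∀ F ∈ S, meromorphicOrderAt (Λ F) 1 = (r F : WithTop ℤ)) ∧
      ∀ Λ₀ : ℂ → ℂ, IsContinuation E Λ₀ →
        meromorphicOrderAt Λ₀ 1 = ((∑ F ∈ S, n F * r F : ℤ) : WithTop ℤ)

section Aux

open Pool.Agent.H341R2.EC Pool.Agent.R433.MD
open Pool.Agent.H921R2.TatePole (nm two_le_nm)

variable {K : Type} [Field K] [NumberField K]

omit [NumberField K] in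
theorem isModel_iff (E : WeierstrassCurve K) (W : WeierstrassCurve (𝓞 K)) :
    (∃ C : WeierstrassCurve.VariableChange K, C • W.map (algebraMap (𝓞 K) K) = E) ↔
      IsModel E W := by
  constructor
  · rintro ⟨C, hC⟩
    exact ⟨C⁻¹, by rw [← hC, inv_smul_smul]⟩
  · rintro ⟨C, hC⟩
    exact ⟨C⁻¹, by rw [← hC, inv_smul_smul]⟩

theorem minimalModels_iff (E : WeierstrassCurve K)
    (V : HeightOneSpectrum (𝓞 K) → WeierstrassCurve (𝓞 K)) :
    MinimalModels E V ↔ ∀ v, IsMinAt E v (V v) := by
  unfold MinimalModels IsMinAt
  simp only [isModel_iff]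

theorem lseries_eq (V : HeightOneSpectrum (𝓞 K) → WeierstrassCurve (𝓞 K)) (s : ℂ) :
    LSeries V s = LL V s := by
  unfold LSeries LL
  refine tprod_congr fun v => ?_
  congr 1
  unfold lf trc dlt
  have h0 : ((nm v : ℕ) : ℂ) ≠ 0 := by
    have := two_le_nm v
    exact_mod_cast (by omega : nm v ≠ 0)
  have e1 : Nat.card {xy : (𝓞 K ⧸ v.asIdeal) × (𝓞 K ⧸ v.asIdeal) //
      ((V v).map (Ideal.Quotient.mk v.asIdeal)).toAffine.Equation xy.1 xy.2} =
      aff (red v (V v)) := by
    unfold aff red
    refine Nat.card_congr (Equiv.subtypeEquivRight fun xy => ?_)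
    rw [WeierstrassCurve.Affine.equation_iff]
  have e2 : ((nm v : ℕ) : ℂ) ^ (1 - 2 * s) = ((nm v : ℕ) : ℂ) * ((nm v : ℕ) : ℂ) ^ (-2 * s) := by
    rw [sub_eq_add_neg, Complex.cpow_add _ _ h0, Complex.cpow_one]
    congr 2
    ring
  have e3 : (Ideal.absNorm v.asIdeal : ℂ) = ((nm v : ℕ) : ℂ) := rfl
  rw [e1, e2, e3]
  push_cast
  split_ifs with h
  · ring
  · ring

theorem ll_unique {E : WeierstrassCurve K} (hE : E.IsElliptic)
    {V V' : HeightOneSpectrum (𝓞 K) → WeierstrassCurve (𝓞 K)} (hV : ∀ v, IsMinAt E v (V v))
    (hV' : ∀ v, IsMinAt E v (V' v)) (s : ℂ) : LL V s = LL V' s := by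
  classical
  have h : ∀ v, lf V s v = lf V' s v := by
    intro v
    obtain ⟨h1, h2⟩ := aff_minimal v hE (hV v) (hV' v)
    have e1 : trc V v = trc V' v := by
      rw [trc, trc, h1]
    have e2 : dlt V v = dlt V' v := by
      rw [dlt, dlt]
      simp only [h2]
    rw [lf, lf, e1, e2]
  rw [LL, LL]
  simp only [h]

theorem isContinuation_iff {E : WeierstrassCurve K} (hE : E.IsElliptic)
    {V : HeightOneSpectrum (𝓞 K) → WeierstrassCurve (𝓞 K)} (hV : ∀ v, IsMinAt E v (V v))
    (Λ : ℂ → ℂ) :
    IsContinuation E Λ ↔ MeromorphicOn Λ Set.univ ∧ ∀ s : ℂ, 3 / 2 < s.re → Λ s = LL V s := by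
  unfold IsContinuation
  constructor
  · rintro ⟨h1, h2⟩
    refine ⟨h1, fun s hs => ?_⟩
    rw [h2 V ((minimalModels_iff E V).2 hV) s hs, lseries_eq]
  · rintro ⟨h1, h2⟩
    refine ⟨h1, fun V' hV' s hs => ?_⟩
    rw [h2 s hs, lseries_eq, ll_unique hE hV ((minimalModels_iff E V').1 hV')]

open Classical in
theorem rank_eq {E : WeierstrassCurve K} (hE : E.IsElliptic) :
    Module.rank ℤ E.toAffine.Point = rank E := by
  have := Pool.Agent.K4H83.OA.mordell_weil K E hE
  rw [rank, Module.finrank_eq_rank]

omit [NumberField K] in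
open Classical in
theorem rank_pt {E : WeierstrassCurve K} (hE : E.IsElliptic) (F : Type) [Field F] [NumberField F]
    [Algebra K F] : Module.rank ℤ (Pool.Agent.R333.BR.Pt E F) = rank (E.map (algebraMap K F)) :=
  rank_eq (E := E.map (algebraMap K F)) inferInstance

end Aux

/-- the relation -/
theorem relation_one (K : Type) [Field K] [NumberField K] (X : ℕ) :
    ∃ (L : Type) (_ : Field L) (_ : NumberField L) (_ : Algebra K L)
      (S : Finset (IntermediateField K L)) (n : IntermediateField K L → ℤ),
      SmallPrimeRelation X S n ∧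
        ∀ E : WeierstrassCurve K, E.IsElliptic → RankAndOrderRelation S n E := by
  classical
  obtain ⟨L, _, _, _, hG, hin, S, n, hS, hsum⟩ := Pool.Agent.H46.SP.exists_relation K X
  refine ⟨L, inferInstance, inferInstance, inferInstance, S, n, ⟨hG, ?_, ?_, ?_, ?_⟩, ?_⟩
  · intro W hW σ hσ
    obtain ⟨u, hu⟩ := Pool.Agent.H46.SP.exists_under (K := K) W
    rw [hu] at hW
    exact hin W u hu hW σ hσ
  · intro F hF w w' hw hw'
    exact Pool.Agent.H46.SP.Fam.unique (hS F hF) hw hw'
  · intro F hF W hW σ hσ
    have h1 : Pool.Agent.H46.SP.Small X F W.asIdeal :=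
      ⟨W.isPrime, W.ne_bot, by rw [Pool.Agent.H46.SP.card_map]; exact hW⟩
    exact (hS F hF _ _ h1 h1).2 σ hσ
  · intro g
    rw [← hsum g]
    exact Finset.sum_congr rfl fun F _ => by
      rw [Pool.Agent.R433.MD.fx_eq_emb]
      rfl
  · intro E hE
    have hne : Nonempty S := by
      by_contra hempty
      rw [not_nonempty_iff] at hempty
      have h1 := hsum 1
      rw [← Finset.sum_coe_sort, Finset.univ_eq_empty, Finset.sum_empty] at h1
      exact zero_ne_one h1
    let Z : S → Pool.Agent.R433.MD.Ext K := fun F => ⟨F.1⟩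
    let f : ∀ F : S, (Z F).F →ₐ[K] L := fun F => F.1.val
    have hrel : ∀ g : Gal(L/K), ∑ F : S,
        n F.1 * Pool.Agent.R433.MD.fx (f F).fieldRange.fixingSubgroup g = ((1 : ℕ) : ℤ) := by
      intro g
      have h1 := hsum g
      rw [← Finset.sum_coe_sort] at h1
      rw [Nat.cast_one, ← h1]
      refine Finset.sum_congr rfl fun F _ => ?_
      have h2 : (f F).fieldRange = F.1 := IntermediateField.fieldRange_val F.1
      rw [h2]
    have hrk := fun F : S => rank_pt hE (F.1 : Type)
    constructor
    · obtain ⟨r0, h1, h2⟩ := Pool.Agent.R333.BR.rank_rel E (fun F : S => (Z F).F) f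
        (fun F => n F.1) ((1 : ℕ) : ℤ) hrel (fun F => rank (E.map (algebraMap K F.1))) hrk
      rw [rank_eq hE] at h1
      have h3 : rank E = r0 := by exact_mod_cast h1
      rw [h3, ← Finset.sum_coe_sort]
      rw [Nat.cast_one, one_mul] at h2
      exact h2
    · intro Λ hΛ
      obtain ⟨V0, hV0⟩ := Pool.Agent.R433.MD.exists_minimal E hE
      choose W hW using fun F : IntermediateField K L =>
        Pool.Agent.R433.MD.exists_minimal (E.map (algebraMap K F)) inferInstance
      have hΛ' : ∀ F : S, MeromorphicOn (Λ F.1) Set.univ ∧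
          ∀ s : ℂ, 3 / 2 < s.re → Λ F.1 s = Pool.Agent.R433.MD.LL (W F.1) s := fun F =>
        (isContinuation_iff inferInstance (hW F.1) _).1 (hΛ F.1 F.2)
      have hcont : ∃ Λ₀ : ℂ → ℂ, IsContinuation E Λ₀ := by
        obtain ⟨V1, Λ1, h1, h2, h3⟩ := Pool.Agent.R333.BR.cont_rel (U := Set.univ) Z f
          (fun F => n F.1) hrel E hE (fun F => W F.1) (fun F w => hW F.1 w)
          (Λ := fun F => Λ F.1) (fun F => (hΛ' F).1) (fun F s hs => (hΛ' F).2 s hs)
        exact ⟨Λ1, (isContinuation_iff hE h1 _).2 ⟨h2, h3⟩⟩
      have hord : ∀ F : S, meromorphicOrderAt (Λ F.1) 1 ≠ ⊤ := by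
        intro F
        refine Pool.Agent.R333.BR.order_ne_top isPreconnected_univ (fun s _ => trivial) trivial
          (hΛ' F).1 fun s hs => ?_
        rw [(hΛ' F).2 s hs]
        exact Pool.Agent.R433.MD.LL_ne_zero inferInstance (hW F.1) hs
      choose r hr using fun F : S => WithTop.ne_top_iff_exists.1 (hord F)
      let r' : IntermediateField K L → ℤ := fun F => if h : F ∈ S then r ⟨F, h⟩ else 0
      have hr' : ∀ F : S, r' F.1 = r F := by
        intro F
        simp only [r', F.2, dif_pos]
      refine ⟨hcont, r', fun F hF => ?_, fun Λ₀ hΛ₀ => ?_⟩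
      · have h1 := hr ⟨F, hF⟩
        rw [← h1, ← hr' ⟨F, hF⟩]
      · obtain ⟨h1, h2⟩ := (isContinuation_iff hE hV0 _).1 hΛ₀
        obtain ⟨r0, h3, h4⟩ := Pool.Agent.R333.BR.ord_rel (U := Set.univ) isPreconnected_univ
          (fun s _ => trivial) trivial Z f (fun F => n F.1) 1 hrel E hE V0 hV0
          (fun F => W F.1) (fun F w => hW F.1 w) h1 h2
          (Λ := fun F => Λ F.1) (fun F => (hΛ' F).1) (fun F s hs => (hΛ' F).2 s hs) r
          (fun F => (hr F).symm)
        rw [h3]
        congr 1
        rw [Nat.cast_one, one_mul] at h4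
        rw [h4, ← Finset.sum_coe_sort S fun F => n F * r' F]
        exact Finset.sum_congr rfl fun F _ => by rw [hr']

/-- **The rank conjecture: number fields with at most one small prime suffice.**

1. For every number field `K` and every `X` there are a finite Galois extension `L / K`, in which no
prime of `K` of norm `≤ X` ramifies, and finitely many intermediate fields `F` with integers `n_F`, such
that every `F` has at most one prime ideal of norm `≤ X`, and `F` and `K` have the same completion
there, `∑ n_F · embeddings F g = 1` for all `g ∈ Gal(L/K)`, and for ALL elliptic curves `E` over `K`: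
`rank E(K) = ∑ n_F rank E(F)`; and if the `L(E/F, s)` have meromorphic continuations to the plane, then so
has `L(E/K, s)`, and `ord_{s=1} L(E/K, s) = ∑ n_F ord_{s=1} L(E/F, s)`.

2. Let `E` be an elliptic curve over a number field `K`, and let `X` be given. If the rank
formula holds for `E` over all finite extensions `F` of `K` with at most one prime ideal of norm `≤ X`,
then it holds for `E` over `K`.

3. If for one `X` the rank formula holds for all elliptic curves over all number fields with at
most one prime ideal of norm `≤ X`, then it holds for all elliptic curves over all number fields. -/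
theorem result :
    (∀ (K : Type) [Field K] [NumberField K] (X : ℕ),
      ∃ (L : Type) (_ : Field L) (_ : NumberField L) (_ : Algebra K L)
        (S : Finset (IntermediateField K L)) (n : IntermediateField K L → ℤ),
        SmallPrimeRelation X S n ∧
          ∀ E : WeierstrassCurve K, E.IsElliptic → RankAndOrderRelation S n E) ∧
    (∀ (K : Type) [Field K] [NumberField K] (E : WeierstrassCurve K), E.IsElliptic → ∀ X : ℕ,
      (∀ (F : Type) [Field F] [NumberField F] [Algebra K F], AtMostOneSmallPrime X F →
        RankFormula (E.map (algebraMap K F))) → RankFormula E) ∧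
    (∀ X : ℕ,
      (∀ (F : Type) [Field F] [NumberField F], AtMostOneSmallPrime X F →
        ∀ E : WeierstrassCurve F, E.IsElliptic → RankFormula E) →
      ∀ (K : Type) [Field K] [NumberField K] (E : WeierstrassCurve K), E.IsElliptic →
        RankFormula E) := by
  have h2 : ∀ (K : Type) [Field K] [NumberField K] (E : WeierstrassCurve K), E.IsElliptic →
      ∀ X : ℕ, (∀ (F : Type) [Field F] [NumberField F] [Algebra K F], AtMostOneSmallPrime X F →
        RankFormula (E.map (algebraMap K F))) → RankFormula E := by
    classical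
    intro K _ _ E hE X h
    obtain ⟨L, _, _, _, S, n, hS, hE'⟩ := relation_one K X
    obtain ⟨hrank, hord⟩ := hE' E hE
    have h3 : ∀ F : IntermediateField K L, ∃ Λ : ℂ → ℂ, F ∈ S →
        IsContinuation (E.map (algebraMap K F)) Λ ∧
          meromorphicOrderAt Λ 1 = ((rank (E.map (algebraMap K F)) : ℤ) : WithTop ℤ) := by
      intro F
      by_cases hF : F ∈ S
      · obtain ⟨⟨Λ, h4⟩, h5⟩ := h F (hS.atMostOne F hF)
        exact ⟨Λ, fun _ => ⟨h4, h5 Λ h4⟩⟩
      · exact ⟨0, fun h => absurd h hF⟩
    choose Λ hΛ using h3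
    obtain ⟨h4, r, h5, h6⟩ := hord Λ fun F hF => (hΛ F hF).1
    refine ⟨h4, fun Λ₀ hΛ₀ => ?_⟩
    rw [h6 Λ₀ hΛ₀, hrank]
    congr 1
    refine Finset.sum_congr rfl fun F hF => ?_
    have h7 := (h5 F hF).symm.trans (hΛ F hF).2
    rw [WithTop.coe_injective h7]
  exact ⟨fun K _ _ X => relation_one K X, h2,
    fun X h K _ _ E hE => h2 K E hE X fun F _ _ _ hF => h F hF _ inferInstance⟩

end Pool.Agent.Results.MP_cd906c_nt.OneSmallPrime
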