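import Pool.Agent.H66.BS.Deg

/-!
# The Birch and Swinnerton-Dyer rank conjecture over number fields and the 3-division fields

`E` is an elliptic curve over a number field `K`.  The minimal models `V` and the Euler product
`LSeries V s` with the correct factors at all primes are those of `Pool.Agent.TH322.BC.Defs`.
`E.Ψ₃` is the 3-division polynomial (its roots are the `x`-coordinates of the points of order 3),
`E.ΨSq m` is the square of the `m`-th division polynomial, a polynomial in `x`, of Mathlib, and
`g.Gal` is the Galois group of the polynomial `g`.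

The rank of `E(K)` and the order of `L(E/K, s)` at `s = 1` are given by one explicit formula in the
ranks and orders over the fields `K(x)`, `K(c)`, `K(x + y, x y)`, where `x ≠ y` are roots of the
3-division polynomial and `c` is a cube root of the discriminant:

`φ(K) = ∑_x φ(K(x)) / [K(x):K] + ∑_c φ(K(c)) / [K(c):K] - ∑_{x,y} φ(K(x+y, xy)) / [K(x+y, xy):K]`.

These fields have degree at most 6, and over each of them `E` has an isogeny of degree 3 or the
discriminant of `E` is a cube.  The proof: a permutation of four letters has as many fixed letters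
and fixed pairings as fixed pairs, plus one; the pairings of the four roots are the cube roots of the
discriminant.
-/

set_option autoImplicit false

namespace Pool.Agent.Results.MP_cd906c_nt.ThreeDivisionFields

open NumberField IsDedekindDomain Polynomial
open Pool.Agent.TH322.BC.Edge (MinimalModels LSeries)
open scoped Classical

/-- The rank of `E(F)`. -/
noncomputable def rank {F : Type} [Field F] (E : WeierstrassCurve F) : ℕ := by
  classical
  exact Module.finrank ℤ E.toAffine.Point

/-- Nonempty families of connected open sets that contain `1` and the half plane `Re s > 3/2`, closed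
under intersections; for example `{ℂ}`, or all half planes `Re s > c` with `c < 1`. -/
def IsDomains (U : Set (Set ℂ)) : Prop :=
  U.Nonempty ∧ (∀ u ∈ U, IsOpen u ∧ IsPreconnected u ∧ (1 : ℂ) ∈ u ∧ ∀ s : ℂ, 3 / 2 < s.re → s ∈ u) ∧
    ∀ u ∈ U, ∀ u' ∈ U, u ∩ u' ∈ U

/-- `L(E, s) ^ t` has a meromorphic continuation to a domain of `U`, of order `r` at `s = 1`. -/
def HasOrder (U : Set (Set ℂ)) {F : Type} [Field F] [NumberField F] (E : WeierstrassCurve F)
    (t : ℕ) (r : ℤ) : Prop :=
  ∀ V : HeightOneSpectrum (𝓞 F) → WeierstrassCurve (𝓞 F), MinimalModels E V →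
    ∃ u ∈ U, ∃ f : ℂ → ℂ, MeromorphicOn f u ∧ (∀ s : ℂ, 3 / 2 < s.re → f s = LSeries V s ^ t) ∧
      meromorphicOrderAt f 1 = (r : WithTop ℤ)

/-- `L(E, s)` has a continuation, and its order at `s = 1` is the rank. -/
def RankFormula (U : Set (Set ℂ)) {F : Type} [Field F] [NumberField F]
    (E : WeierstrassCurve F) : Prop :=
  HasOrder U E 1 (rank E)

/-- The 3-division polynomial has a root in `F` (that is, `E` has an isogeny of degree 3 defined over
`F`), or the discriminant of `E` is a cube in `F`. -/
def IsogenyOrCube {F : Type} [Field F] (E : WeierstrassCurve F) : Prop :=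
  (∃ x : F, E.Ψ₃.eval x = 0) ∨ ∃ d : F, d ^ 3 = E.Δ

/-- The roots of the 3-division polynomial in an algebraic closure: the `x`-coordinates of the
points of order 3. -/
noncomputable def threeRoots {K : Type} [Field K] (E : WeierstrassCurve K) :
    Finset (AlgebraicClosure K) :=
  (E.Ψ₃.aroots (AlgebraicClosure K)).toFinset

/-- The cube roots of the discriminant. -/
noncomputable def cubeRoots {K : Type} [Field K] (E : WeierstrassCurve K) :
    Finset (AlgebraicClosure K) :=
  ((X ^ 3 - C E.Δ : K[X]).aroots (AlgebraicClosure K)).toFinset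

/-- The field `K(x + y, x y)` of a pair `{x, y}`. -/
noncomputable def pairField {K : Type} [Field K] (p : Finset (AlgebraicClosure K)) :
    IntermediateField K (AlgebraicClosure K) :=
  IntermediateField.adjoin K {∑ x ∈ p, x, ∏ x ∈ p, x}

/-- The fields `K(x)`, `K(c)` and `K(x + y, x y)`, for the roots `x ≠ y` of the 3-division polynomial
and the cube roots `c` of the discriminant. -/
def divisionFields {K : Type} [Field K] (E : WeierstrassCurve K) :
    Set (IntermediateField K (AlgebraicClosure K)) :=
  {F | (∃ x ∈ threeRoots E, F = IntermediateField.adjoin K {x}) ∨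
    (∃ c ∈ cubeRoots E, F = IntermediateField.adjoin K {c}) ∨
    ∃ p ∈ (threeRoots E).powersetCard 2, F = pairField p}

/-- The sum `∑_x φ(K(x)) / [K(x):K] + ∑_c φ(K(c)) / [K(c):K] - ∑_{x,y} φ(K(x+y, xy)) / [K(x+y, xy):K]`
over the roots `x`, the cube roots `c` of the discriminant and the pairs `{x, y}` of roots. -/
noncomputable def divisionSum {K : Type} [Field K] (E : WeierstrassCurve K)
    (φ : IntermediateField K (AlgebraicClosure K) → ℚ) : ℚ :=
  ∑ x ∈ threeRoots E, φ (IntermediateField.adjoin K {x}) /
      (Module.finrank K (IntermediateField.adjoin K {x}) : ℚ) +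
    ∑ c ∈ cubeRoots E, φ (IntermediateField.adjoin K {c}) /
      (Module.finrank K (IntermediateField.adjoin K {c}) : ℚ) -
    ∑ p ∈ (threeRoots E).powersetCard 2, φ (pairField p) / (Module.finrank K (pairField p) : ℚ)

/-- Hyperelementary groups: a normal cyclic subgroup of order prime to `p` whose quotient is a
`p`-group. -/
def Hyperelementary (G : Type) [Group G] : Prop :=
  ∃ p : ℕ, p.Prime ∧ ∃ C : Subgroup G, C.Normal ∧ IsCyclic C ∧ (Nat.card C).Coprime p ∧
    ∀ g : G, ∃ k : ℕ, g ^ p ^ k ∈ C

/-- A set of positive integers closed under multiples, with greatest common divisor `1`; for example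
all multiples of `10^100` and all multiples of `3^100`. -/
def IsSparse (D : Set ℕ) : Prop :=
  (∀ d ∈ D, ∀ n : ℕ, 0 < n → d * n ∈ D) ∧ ∀ g : ℕ, (∀ d ∈ D, g ∣ d) → g = 1

/-- The special curves: 3-isogeny or cube, and over `F` the division polynomials up to `n` and the
polynomials of the finite set `S` have hyperelementary Galois groups. -/
def Special (n : ℕ) (S : Finset ℚ[X]) {F : Type} [Field F] [NumberField F]
    (E : WeierstrassCurve F) : Prop :=
  IsogenyOrCube E ∧ (∀ m : ℕ, m ≤ n → Hyperelementary (E.ΨSq m).Gal) ∧
    ∀ g ∈ S, Hyperelementary (g.map (algebraMap ℚ F)).Gal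

theorem rank_eq {F : Type} [Field F] (E : WeierstrassCurve F) :
    rank E = Pool.Agent.Q5.BR.rk E := rfl

theorem hasOrder_iff (U : Set (Set ℂ)) {F : Type} [Field F] [NumberField F]
    (E : WeierstrassCurve F) (t : ℕ) (r : ℤ) :
    HasOrder U E t r ↔ Pool.Agent.Q5.BR.AllB U E t r := by
  unfold HasOrder Pool.Agent.Q5.BR.AllB Pool.Agent.Q5.BR.PowB
  simp only [zpow_natCast]

theorem rankFormula_iff (U : Set (Set ℂ)) {F : Type} [Field F] [NumberField F]
    (E : WeierstrassCurve F) :
    RankFormula U E ↔ Pool.Agent.Q5.BR.AllB U E 1 (Pool.Agent.Q5.BR.rk E) := by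
  unfold RankFormula
  rw [hasOrder_iff, Nat.cast_one, rank_eq]

/-- the rank formula, one curve -/
theorem key {U : Set (Set ℂ)} (hU : IsDomains U) (K : Type) [Field K] [NumberField K]
    (E : WeierstrassCurve K) (hE : E.IsElliptic) (D : Set ℕ) (n : ℕ) (S : Finset ℚ[X])
    (hD : IsSparse D)
    (h : ∀ (F : Type) [Field F] [NumberField F] [Algebra K F], Module.finrank K F ∈ D →
      Special n S (E.map (algebraMap K F)) → RankFormula U (E.map (algebraMap K F))) :
    RankFormula U E := by
  classical
  -- all fields of degree in `D`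
  have h1 : ∀ (F : Type) [Field F] [NumberField F] [Algebra K F], Module.finrank K F ∈ D →
      Pool.Agent.Q5.BR.AllB U (E.map (algebraMap K F)) 1
        (Pool.Agent.Q5.BR.rk (E.map (algebraMap K F))) := by
    intro F _ _ _ hd
    have hEF : (E.map (algebraMap K F)).IsElliptic := inferInstance
    let T : Finset F[X] := (Finset.range (n + 1)).image
        (fun m : ℕ => (E.map (algebraMap K F)).ΨSq (m : ℤ)) ∪
      S.image (fun g => g.map (algebraMap ℚ F))
    obtain ⟨ι, _, X, k, hX, hrel⟩ := Pool.Agent.Q7.TR.hyper_relation hEF T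
    have h2 := Pool.Agent.H66.BS.bsd_of_rel (U := U) hU hEF hrel 1 (fun j => by
      let _ : Algebra K (X j).F := ((algebraMap F (X j).F).comp (algebraMap K F)).toAlgebra
      have : IsScalarTower K F (X j).F := IsScalarTower.of_algebraMap_eq fun x => rfl
      rw [one_mul, ← rankFormula_iff]
      have h3 : (E.map (algebraMap K F)).map (algebraMap F (X j).F) =
          E.map (algebraMap K (X j).F) := by
        rw [WeierstrassCurve.map_map]
        rfl
      rw [h3]
      refine h (X j).F ?_ ⟨?_, fun m hm => ?_, fun g hg => ?_⟩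
      · rw [← Module.finrank_mul_finrank K F (X j).F]
        exact hD.1 _ hd _ Module.finrank_pos
      · rw [← h3]
        exact (hX j).1
      · have h4 := (hX j).2 _ (Finset.mem_union_left _ (Finset.mem_image_of_mem
          (fun m : ℕ => (E.map (algebraMap K F)).ΨSq (m : ℤ))
          (Finset.mem_range.2 (Nat.lt_succ_of_le hm))))
        rw [← WeierstrassCurve.map_ΨSq, h3] at h4
        exact h4
      · have h4 := (hX j).2 _ (Finset.mem_union_right _ (Finset.mem_image_of_mem
          (fun g : ℚ[X] => g.map (algebraMap ℚ F)) hg))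
        rw [Polynomial.map_map] at h4
        have h5 : (algebraMap F (X j).F).comp (algebraMap ℚ F) = algebraMap ℚ (X j).F :=
          Subsingleton.elim _ _
        rw [h5] at h4
        exact h4)
    rw [mul_one, one_mul] at h2
    exact h2
  rw [rankFormula_iff]
  intro V hV
  refine Pool.Agent.Q5.BR.powB_one_of (U := U) hU hE hV _ hD.2 (fun d hd => ?_)
  have h2 := Pool.Agent.Q5.BR.bsd_power_law (U := U) hU hE (M := d) (by
    intro F' _ _ _ hdv
    obtain ⟨n, hn⟩ := hdv
    refine h1 F' ?_
    rw [hn]
    refine hD.1 d hd n (Nat.pos_of_ne_zero ?_)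
    rintro rfl
    rw [mul_zero] at hn
    exact (Module.finrank_pos (R := K) (M := F')).ne' hn) d K (dvd_mul_left _ _)
  rw [Algebra.algebraMap_self, WeierstrassCurve.map_id] at h2
  exact h2 V hV

theorem divisionSum_eq {K : Type} [Field K] [NumberField K] (E : WeierstrassCurve K)
    (φ : IntermediateField K (AlgebraicClosure K) → ℚ) :
    divisionSum E φ = ∑ j : Pool.Agent.H66.BS.Idx E, (Pool.Agent.H66.BS.sg E j : ℚ) *
      (φ (Pool.Agent.H66.BS.fld E j) / Module.finrank K (Pool.Agent.H66.BS.fld E j)) := by
  rw [Pool.Agent.H66.BS.sum_idx E _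
    (fun x => φ (IntermediateField.adjoin K {x}) /
      (Module.finrank K (IntermediateField.adjoin K {x}) : ℚ))
    (fun x => φ (IntermediateField.adjoin K {x}) /
      (Module.finrank K (IntermediateField.adjoin K {x}) : ℚ))
    (fun p => -(φ (pairField p) / (Module.finrank K (pairField p) : ℚ)))]
  · rw [Finset.sum_neg_distrib, ← sub_eq_add_neg, ← add_sub_assoc]
    rfl
  · intro x
    change ((1 : ℤ) : ℚ) * _ = _
    rw [Int.cast_one, one_mul]
    rfl
  · intro x
    change ((1 : ℤ) : ℚ) * _ = _
    rw [Int.cast_one, one_mul]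
    rfl
  · intro p
    change ((-1 : ℤ) : ℚ) * _ = _
    rw [Int.cast_neg, Int.cast_one, neg_one_mul]
    rfl

theorem fld_mem {K : Type} [Field K] [NumberField K] (E : WeierstrassCurve K)
    (j : Pool.Agent.H66.BS.Idx E) : Pool.Agent.H66.BS.fld E j ∈ divisionFields E := by
  rcases j with x | x | p
  · exact Or.inl ⟨x.1, x.2, rfl⟩
  · exact Or.inr (Or.inl ⟨x.1, x.2, rfl⟩)
  · exact Or.inr (Or.inr ⟨p.1, p.2, rfl⟩)

theorem mem_fld {K : Type} [Field K] [NumberField K] {E : WeierstrassCurve K}
    {F : IntermediateField K (AlgebraicClosure K)} (hF : F ∈ divisionFields E) :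
    ∃ j : Pool.Agent.H66.BS.Idx E, Pool.Agent.H66.BS.fld E j = F := by
  rcases hF with ⟨x, hx, rfl⟩ | ⟨x, hx, rfl⟩ | ⟨p, hp, rfl⟩
  · exact ⟨Sum.inl ⟨x, hx⟩, rfl⟩
  · exact ⟨Sum.inr (Sum.inl ⟨x, hx⟩), rfl⟩
  · exact ⟨Sum.inr (Sum.inr ⟨p, hp⟩), rfl⟩

/-- The division fields have degree at most 6, and over each of them `E` has a 3-isogeny or the
discriminant is a cube. -/
def SmallAndSpecial {K : Type} [Field K] (E : WeierstrassCurve K) : Prop :=
  ∀ F ∈ divisionFields E, Module.finrank K F ≤ 6 ∧ IsogenyOrCube (E.map (algebraMap K F))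

/-- The rank of `E(K)` is the division sum of the ranks over the division fields. -/
def RankIsDivisionSum {K : Type} [Field K] (E : WeierstrassCurve K) : Prop :=
  (rank E : ℚ) = divisionSum E (fun F => rank (E.map (algebraMap K F)))

/-- If the `L`-functions of `E` over the division fields `F` have continuations of orders `r_F` at
`s = 1`, then `L(E/K, s)` has a continuation, and its order is the division sum of the `r_F`. -/
def OrderIsDivisionSum (U : Set (Set ℂ)) {K : Type} [Field K] [NumberField K]
    (E : WeierstrassCurve K) : Prop :=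
  ∀ r : IntermediateField K (AlgebraicClosure K) → ℤ,
    (∀ F ∈ divisionFields E, ∀ [NumberField F], HasOrder U (E.map (algebraMap K F)) 1 (r F)) →
    ∃ r₀ : ℤ, HasOrder U E 1 r₀ ∧ (r₀ : ℚ) = divisionSum E (fun F => r F)

/-- The rank formula over the division fields implies the rank formula over `K`. -/
def RankFormulaDescends (U : Set (Set ℂ)) {K : Type} [Field K] [NumberField K]
    (E : WeierstrassCurve K) : Prop :=
  (∀ F ∈ divisionFields E, ∀ [NumberField F], RankFormula U (E.map (algebraMap K F))) →
    RankFormula U E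

/-- The rank formula for the special curves over the number fields `F` with `[F:ℚ] ∈ D`. -/
def RankFormulaForSpecial (U : Set (Set ℂ)) (D : Set ℕ) (n : ℕ) (S : Finset ℚ[X]) : Prop :=
  ∀ (F : Type) [Field F] [NumberField F], Module.finrank ℚ F ∈ D →
    ∀ E : WeierstrassCurve F, E.IsElliptic → Special n S E → RankFormula U E

/-- **Rank and order from the 3-division fields.**  `E` is an elliptic curve over a number field `K`.
1. The division fields have degree at most 6 over `K`, and over each of them `E` has a 3-isogeny or
the discriminant of `E` is a cube.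
2. The rank of `E(K)` is the division sum of the ranks over the division fields.
3. If the `L`-functions of `E` over the division fields `F` have continuations of orders `r_F` at
`s = 1`, then so has `L(E/K, s)`, and its order is the division sum of the `r_F`.
4. So if the rank formula holds over the division fields of `E/K`, then it holds for `E/K`; and for all
sparse `D`, all `n` and `S`, the rank formula for all elliptic curves over all number fields follows
from the rank formula for the special curves over number fields `F` with `[F:ℚ] ∈ D`. -/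
theorem result (U : Set (Set ℂ)) (hU : IsDomains U) :
    (∀ (K : Type) [Field K] [NumberField K] (E : WeierstrassCurve K), E.IsElliptic →
      SmallAndSpecial E ∧ RankIsDivisionSum E ∧ OrderIsDivisionSum U E ∧
      RankFormulaDescends U E) ∧
    ∀ (D : Set ℕ) (n : ℕ) (S : Finset ℚ[X]), IsSparse D → RankFormulaForSpecial U D n S →
      ∀ (F : Type) [Field F] [NumberField F] (E : WeierstrassCurve F), E.IsElliptic →
        RankFormula U E := by
  refine ⟨?_, ?_⟩
  · intro K _ _ E hE
    have hΔ : E.Δ ≠ 0 := hE.isUnit.ne_zero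
    have hrank : (rank E : ℚ) = divisionSum E (fun F => rank (E.map (algebraMap K F))) := by
      rw [divisionSum_eq]
      exact Pool.Agent.H66.BS.rank_formula hE
    have horder : ∀ r : IntermediateField K (AlgebraicClosure K) → ℤ,
        (∀ F ∈ divisionFields E, ∀ [NumberField F],
          HasOrder U (E.map (algebraMap K F)) 1 (r F)) →
        ∃ r₀ : ℤ, HasOrder U E 1 r₀ ∧ (r₀ : ℚ) = divisionSum E (fun F => r F) := by
      intro r hr
      obtain ⟨r₀, h1, h2⟩ := Pool.Agent.H66.BS.order_formula (U := U) hU hE
        (fun j => r (Pool.Agent.H66.BS.fld E j))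
        (fun j => (hasOrder_iff U _ 1 _).1 (hr _ (fld_mem E j)))
      refine ⟨r₀, (hasOrder_iff U E 1 r₀).2 h1, ?_⟩
      rw [divisionSum_eq]
      exact h2
    refine ⟨?_, hrank, horder, ?_⟩
    · intro F hF
      obtain ⟨j, rfl⟩ := mem_fld hF
      exact ⟨Pool.Agent.H66.BS.deg_le E j, Pool.Agent.H66.BS.ioc_fld hΔ j⟩
    · intro h
      obtain ⟨r₀, h1, h2⟩ := horder (fun F => rank (E.map (algebraMap K F))) h
      have h3 : (r₀ : ℚ) = (rank E : ℚ) := by
        rw [h2, hrank]
        congr 1
      have h4 : r₀ = (rank E : ℤ) := by exact_mod_cast h3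
      rw [h4] at h1
      exact h1
  · intro D n S hD h F _ _ E hE
    refine key hU F E hE D n S hD fun F' _ _ _ hd hs => h F' ?_ _ inferInstance hs
    rw [← Module.finrank_mul_finrank ℚ F F', mul_comm]
    exact hD.1 _ hd _ Module.finrank_pos

end Pool.Agent.Results.MP_cd906c_nt.ThreeDivisionFields
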